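import Pool.Agent.Helper411.Union

set_option autoImplicit false
set_option linter.unusedSectionVars false

namespace Pool.Agent.Helper411

open Submodule Module Finset

/-- `G` has the complete bipartite graph with parts `I` and `J` as a minor, the branch sets
containing the prescribed roots `u i` and `w j`. -/
def Model {V I J : Type} (G : SimpleGraph V) (u : I → V) (w : J → V) : Prop :=
  ∃ U : I ⊕ J → Set V,
    (∀ k, (G.induce (U k)).Connected) ∧
    (∀ k l, k ≠ l → Disjoint (U k) (U l)) ∧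
    (∀ i, u i ∈ U (.inl i)) ∧ (∀ j, w j ∈ U (.inr j)) ∧
    (∀ i j, ∃ x ∈ U (.inl i), ∃ y ∈ U (.inr j), G.Adj x y)

lemma Model.swap {V I J : Type} {G : SimpleGraph V} {u : I → V} {w : J → V}
    (h : Model G w u) : Model G u w := by
  obtain ⟨U, h1, h2, h3, h4, h5⟩ := h
  refine ⟨fun k => U k.swap, fun k => h1 _, ?_, fun i => h4 i, fun j => h3 j, ?_⟩
  · intro k l hkl
    exact h2 _ _ (fun h => hkl (Sum.swap_leftInverse.injective h))
  · intro i j
    obtain ⟨x, hx, y, hy, hxy⟩ := h5 j i
    exact ⟨y, hy, x, hx, hxy.symm⟩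

/-- Reachability inside a set passes to a larger set. -/
lemma reach_mono {V : Type} {G : SimpleGraph V} {S T : Set V} (hST : S ⊆ T) {x y : V}
    {hx : x ∈ S} {hy : y ∈ S} (h : (G.induce S).Reachable ⟨x, hx⟩ ⟨y, hy⟩) :
    (G.induce T).Reachable ⟨x, hST hx⟩ ⟨y, hST hy⟩ :=
  h.map (SimpleGraph.induceHomOfLE G hST).toHom

/-- Minor models lift along a contraction with connected fibres. -/
theorem Model.of_contraction {V W I J : Type} (G : SimpleGraph V) (H : SimpleGraph W)
    (φ : V → Option W)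
    (hconn : ∀ b : W, (G.induce {v | φ v = some b}).Connected)
    (hadj : ∀ b c, H.Adj b c → ∃ v v', φ v = some b ∧ φ v' = some c ∧ G.Adj v v')
    (u : I → V) (w : J → V) (u' : I → W) (w' : J → W) (hu : ∀ i, φ (u i) = some (u' i))
    (hw : ∀ j, φ (w j) = some (w' j)) (h : Model H u' w') : Model G u w := by
  obtain ⟨U, h1, h2, h3, h4, h5⟩ := h
  let T : I ⊕ J → Set V := fun k => {v | ∃ b ∈ U k, φ v = some b}
  have hfib : ∀ k (b : W), b ∈ U k → {v | φ v = some b} ⊆ T k := by
    intro k b hb v hv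
    exact ⟨b, hb, hv⟩
  refine ⟨T, ?_, ?_, fun i => ⟨u' i, h3 i, hu i⟩, fun j => ⟨w' j, h4 j, hw j⟩, ?_⟩
  · intro k
    have hreach : ∀ (b c : U k), (H.induce (U k)).Reachable b c →
        ∀ (x y : V) (hx : φ x = some b.1) (hy : φ y = some c.1),
        (G.induce (T k)).Reachable ⟨x, ⟨b.1, b.2, hx⟩⟩ ⟨y, ⟨c.1, c.2, hy⟩⟩ := by
      intro b c hbc
      rw [SimpleGraph.reachable_iff_reflTransGen] at hbc
      induction hbc with
      | refl =>
        intro x y hx hy
        exact reach_mono (hfib k b.1 b.2) ((hconn b.1).preconnected ⟨x, hx⟩ ⟨y, hy⟩)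
      | @tail c d hbc hcd ih =>
        intro x y hx hy
        obtain ⟨v, v', hv, hv', hvv⟩ := hadj c.1 d.1 hcd
        have r1 := ih x v hx hv
        have r2 : (G.induce (T k)).Reachable ⟨v, ⟨c.1, c.2, hv⟩⟩ ⟨v', ⟨d.1, d.2, hv'⟩⟩ :=
          SimpleGraph.Adj.reachable (by exact hvv)
        have r3 := reach_mono (hfib k d.1 d.2) ((hconn d.1).preconnected ⟨v', hv'⟩ ⟨y, hy⟩)
        exact (r1.trans r2).trans r3
    obtain ⟨b0⟩ := (h1 k).nonempty
    obtain ⟨⟨v0, hv0⟩⟩ := (hconn b0.1).nonempty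
    rw [SimpleGraph.connected_iff_exists_forall_reachable]
    refine ⟨⟨v0, ⟨b0.1, b0.2, hv0⟩⟩, ?_⟩
    rintro ⟨y, ⟨c, hc, hy⟩⟩
    exact hreach b0 ⟨c, hc⟩ ((h1 k).preconnected b0 ⟨c, hc⟩) v0 y hv0 hy
  · intro k l hkl
    rw [Set.disjoint_left]
    rintro v ⟨b, hb, hvb⟩ ⟨c, hc, hvc⟩
    rw [hvb] at hvc
    have : b = c := Option.some_injective _ hvc
    subst this
    exact (Set.disjoint_left.1 (h2 k l hkl)) hb hc
  · intro i j
    obtain ⟨b, hb, c, hc, hbc⟩ := h5 i j
    obtain ⟨v, v', hv, hv', hvv⟩ := hadj b c hbc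
    exact ⟨v, ⟨b, hb, hv⟩, v', ⟨c, hc, hv'⟩, hvv⟩

/-- The part of `G` inside the union of the classes of row `i` and column `j`. -/
def cell {V I J : Type} (G : SimpleGraph V) (ℓ : V → I ⊕ J) (i : I) (j : J) : SimpleGraph V where
  Adj a b := G.Adj a b ∧ (ℓ a = .inl i ∨ ℓ a = .inr j) ∧ (ℓ b = .inl i ∨ ℓ b = .inr j)
  symm := ⟨fun _ _ h => ⟨h.1.symm, h.2.2, h.2.1⟩⟩
  loopless := ⟨fun _ h => G.irrefl h.1⟩

/-- A bipartite scheme in which edges join row classes to column classes only. -/
structure BipScheme {V I J : Type} (G : SimpleGraph V) (ℓ : V → I ⊕ J) (u : I → V) (w : J → V) :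
    Prop where
  bip : ∀ a b, G.Adj a b → (ℓ a).isLeft ≠ (ℓ b).isLeft
  hu : ∀ i, ℓ (u i) = .inl i
  hw : ∀ j, ℓ (w j) = .inr j
  conn : ∀ i j, (cell G ℓ i j).Reachable (u i) (w j)

lemma BipScheme.swap {V I J : Type} {G : SimpleGraph V} {ℓ : V → I ⊕ J} {u : I → V} {w : J → V}
    (h : BipScheme G ℓ u w) : BipScheme G (fun v => (ℓ v).swap) w u := by
  refine ⟨?_, fun j => by rw [h.hw j]; rfl, fun i => by rw [h.hu i]; rfl, ?_⟩
  · intro a b hab
    have := h.bip a b hab
    rcases ha : ℓ a with x | x <;> rcases hb : ℓ b with y | y <;> simp_all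
  · intro j i
    have h1 := (h.conn i j).symm
    have h2 : cell G ℓ i j ≤ cell G (fun v => (ℓ v).swap) j i := by
      intro a b hab
      obtain ⟨h1, h2, h3⟩ := hab
      refine ⟨h1, ?_, ?_⟩
      · rcases h2 with h | h
        · right; simp [h]
        · left; simp [h]
      · rcases h3 with h | h
        · right; simp [h]
        · left; simp [h]
    exact h1.mono h2

/-- Path extraction in one cell: links `y` joining the vertices `a y` and `b y`. -/
lemma exists_links {V I J : Type} {G : SimpleGraph V} {ℓ : V → I ⊕ J} {u : I → V} {w : J → V}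
    (h : BipScheme G ℓ u w) (i : I) (j : J) :
    ∃ (lk : V → Prop) (a b : V → V),
      (∀ y, lk y → y ≠ w j ∧ ℓ y = .inr j ∧ ℓ (a y) = .inl i ∧ ℓ (b y) = .inl i ∧
        G.Adj (a y) y ∧ G.Adj y (b y)) ∧
      ∃ x, Relation.ReflTransGen (fun x x' => ∃ y, lk y ∧ a y = x ∧ b y = x') (u i) x ∧
        ℓ x = .inl i ∧ G.Adj x (w j) := by
  classical
  obtain ⟨p, hp⟩ := (h.conn i j).exists_isPath
  let q : ℕ → V := fun t => p.getVert t
  have hq0 : q 0 = u i := p.getVert_zero
  have hqn : q p.length = w j := p.getVert_length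
  have hadj : ∀ t, t < p.length → (cell G ℓ i j).Adj (q t) (q (t + 1)) :=
    fun t ht => p.adj_getVert_succ ht
  have hinj : ∀ s t, s ≤ p.length → t ≤ p.length → q s = q t → s = t := by
    intro s t hs ht hst
    exact hp.getVert_injOn hs ht hst
  -- labels alternate
  have hlab : ∀ t, t ≤ p.length → (t % 2 = 0 → ℓ (q t) = .inl i) ∧
      (t % 2 = 1 → ℓ (q t) = .inr j) := by
    intro t
    induction t with
    | zero =>
      intro _
      refine ⟨fun _ => by rw [hq0, h.hu], fun h => by omega⟩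
    | succ t ih =>
      intro ht
      obtain ⟨ih1, ih2⟩ := ih (by omega)
      have hA := hadj t (by omega)
      have hb := h.bip _ _ hA.1
      rcases Nat.mod_two_eq_zero_or_one t with h0 | h1
      · have hl := ih1 h0
        refine ⟨fun h => by omega, fun _ => ?_⟩
        rcases hA.2.2 with h' | h'
        · rw [hl, h'] at hb
          exact absurd rfl hb
        · exact h'
      · have hl := ih2 h1
        refine ⟨fun _ => ?_, fun h => by omega⟩
        rcases hA.2.2 with h' | h'
        · exact h'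
        · rw [hl, h'] at hb
          exact absurd rfl hb
  have hodd : p.length % 2 = 1 := by
    by_contra hne
    have h0 : p.length % 2 = 0 := by omega
    have := (hlab p.length le_rfl).1 h0
    rw [hqn, h.hw] at this
    simp at this
  let lk : V → Prop := fun y => ∃ s, 2 * s + 2 < p.length ∧ q (2 * s + 1) = y
  let pos : V → ℕ := fun y => if hy : lk y then hy.choose else 0
  have hpos : ∀ y, lk y → 2 * pos y + 2 < p.length ∧ q (2 * pos y + 1) = y := by
    intro y hy
    simp only [pos, dif_pos hy]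
    exact hy.choose_spec
  have hpos2 : ∀ s, 2 * s + 2 < p.length → pos (q (2 * s + 1)) = s := by
    intro s hs
    have hl : lk (q (2 * s + 1)) := ⟨s, hs, rfl⟩
    obtain ⟨h1, h2⟩ := hpos _ hl
    have := hinj _ _ (by omega) (by omega) h2
    omega
  refine ⟨lk, fun y => q (2 * pos y), fun y => q (2 * pos y + 2), ?_, ?_⟩
  · intro y hy
    obtain ⟨h1, h2⟩ := hpos y hy
    refine ⟨?_, ?_, ?_, ?_, ?_, ?_⟩
    · rw [← h2, ← hqn]
      intro h3
      have := hinj _ _ (by omega) le_rfl h3
      omega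
    · rw [← h2]
      exact (hlab _ (by omega)).2 (by omega)
    · exact (hlab _ (by omega)).1 (by omega)
    · exact (hlab _ (by omega)).1 (by omega)
    · have := (hadj (2 * pos y) (by omega)).1
      rwa [h2] at this
    · have := (hadj (2 * pos y + 1) (by omega)).1
      rwa [h2] at this
  · obtain ⟨k, hk⟩ : ∃ k, p.length = 2 * k + 1 := ⟨p.length / 2, by omega⟩
    refine ⟨q (2 * k), ?_, (hlab _ (by omega)).1 (by omega), ?_⟩
    · have : ∀ s, 2 * s < p.length →
          Relation.ReflTransGen (fun x x' => ∃ y, lk y ∧ q (2 * pos y) = x ∧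
            q (2 * pos y + 2) = x') (u i) (q (2 * s)) := by
        intro s
        induction s with
        | zero =>
          intro _
          rw [Nat.mul_zero, hq0]
        | succ s ih =>
          intro hs
          refine Relation.ReflTransGen.tail (ih (by omega)) ?_
          refine ⟨q (2 * s + 1), ⟨s, by omega, rfl⟩, ?_, ?_⟩
          · rw [hpos2 s (by omega)]
          · rw [hpos2 s (by omega)]
            congr 1
      exact this k (by omega)
    · have := (hadj (2 * k) (by omega)).1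
      rwa [← hk, hqn] at this

end Pool.Agent.Helper411
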