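import Pool.Agent.Helper411.Step

set_option autoImplicit false
set_option linter.unusedSectionVars false

namespace Pool.Agent.Helper411

open Finset

/-- A bipartite scheme without islands is a complete bipartite graph. -/
lemma model_of_no_islands {V I J : Type} {G : SimpleGraph V} {ℓ : V → I ⊕ J} {u : I → V}
    {w : J → V} (h : BipScheme G ℓ u w) (hX : ∀ v i, ℓ v = .inl i → v = u i)
    (hY : ∀ v j, ℓ v = .inr j → v = w j) : Model G u w := by
  refine ⟨fun k => match k with
    | .inl i => {u i}
    | .inr j => {w j}, ?_, ?_, fun i => rfl, fun j => rfl, ?_⟩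
  · rintro (i | j)
    · rw [SimpleGraph.connected_iff_exists_forall_reachable]
      refine ⟨⟨u i, rfl⟩, ?_⟩
      rintro ⟨x, rfl⟩
      exact SimpleGraph.Reachable.refl _
    · rw [SimpleGraph.connected_iff_exists_forall_reachable]
      refine ⟨⟨w j, rfl⟩, ?_⟩
      rintro ⟨x, rfl⟩
      exact SimpleGraph.Reachable.refl _
  · rintro (i | j) (i' | j') hne
    · rw [Set.disjoint_singleton]
      intro he
      have := congrArg ℓ he
      rw [h.hu, h.hu] at this
      exact hne this
    · rw [Set.disjoint_singleton]
      intro he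
      have := congrArg ℓ he
      rw [h.hu, h.hw] at this
      simp at this
    · rw [Set.disjoint_singleton]
      intro he
      have := congrArg ℓ he
      rw [h.hu, h.hw] at this
      simp at this
    · rw [Set.disjoint_singleton]
      intro he
      have := congrArg ℓ he
      rw [h.hw, h.hw] at this
      exact hne this
  · intro i j
    refine ⟨u i, rfl, w j, rfl, ?_⟩
    have hne : u i ≠ w j := by
      intro he
      have := congrArg ℓ he
      rw [h.hu, h.hw] at this
      simp at this
    have hr := h.conn i j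
    rw [SimpleGraph.reachable_iff_reflTransGen] at hr
    rcases Relation.ReflTransGen.cases_head hr with heq | ⟨c, hc, _⟩
    · exact absurd heq hne
    · obtain ⟨hadj, _, hcl⟩ := hc
      rcases hcl with hcl | hcl
      · have := hX c i hcl
        subst this
        exact absurd hadj (G.irrefl)
      · have := hY c j hcl
        subst this
        exact hadj

/-- **Bipartite schemes.** A graph carrying a bipartite `I × J` scheme whose edges join row classes
to column classes has a rooted complete bipartite minor. -/
theorem bip_main (n : ℕ) : ∀ {V I J : Type} [Fintype V] [Fintype I] [Fintype J] [Nonempty I]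
    [Nonempty J] (G : SimpleGraph V) (ℓ : V → I ⊕ J) (u : I → V) (w : J → V),
    Fintype.card V = n → BipScheme G ℓ u w → Model G u w := by
  induction n using Nat.strong_induction_on with
  | _ n ih =>
  intro V I J _ _ _ _ _ G ℓ u w hn h
  classical
  let EX : Finset V := Finset.univ.filter (fun v => ∃ i, ℓ v = .inl i ∧ v ≠ u i)
  let EY : Finset V := Finset.univ.filter (fun v => ∃ j, ℓ v = .inr j ∧ v ≠ w j)
  have hEX : ∀ v, v ∈ EX ↔ ∃ i, ℓ v = .inl i ∧ v ≠ u i := fun v => by
    simp only [EX, Finset.mem_filter, Finset.mem_univ, true_and]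
  have hEY : ∀ v, v ∈ EY ↔ ∃ j, ℓ v = .inr j ∧ v ≠ w j := fun v => by
    simp only [EY, Finset.mem_filter, Finset.mem_univ, true_and]
  by_cases hboth : EX = ∅ ∧ EY = ∅
  · apply model_of_no_islands h
    · intro v i hv
      by_contra hne
      have : v ∈ EX := (hEX v).2 ⟨i, hv, hne⟩
      rw [hboth.1] at this
      exact absurd this (Finset.notMem_empty v)
    · intro v j hv
      by_contra hne
      have : v ∈ EY := (hEY v).2 ⟨j, hv, hne⟩
      rw [hboth.2] at this
      exact absurd this (Finset.notMem_empty v)
  · rcases le_total EX.card EY.card with hle | hle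
    · have hne : EY.Nonempty := by
        rw [Finset.nonempty_iff_ne_empty]
        intro he
        rw [he, Finset.card_empty] at hle
        exact hboth ⟨Finset.card_eq_zero.1 (Nat.le_zero.1 hle), he⟩
      obtain ⟨W, hW, H, ℓ', u', w', h1, h2, h3⟩ := step G ℓ u w h EX EY hEX hEY hle hne
      exact h3 (ih (Fintype.card W) (hn ▸ h1) H ℓ' u' w' rfl h2)
    · have hne : EX.Nonempty := by
        rw [Finset.nonempty_iff_ne_empty]
        intro he
        rw [he, Finset.card_empty] at hle
        exact hboth ⟨he, Finset.card_eq_zero.1 (Nat.le_zero.1 hle)⟩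
      have hEY' : ∀ v, v ∈ EY ↔ ∃ j, (ℓ v).swap = (.inl j : J ⊕ I) ∧ v ≠ w j := by
        intro v
        rw [hEY]
        constructor
        · rintro ⟨j, hj, hv⟩
          exact ⟨j, by rw [hj]; rfl, hv⟩
        · rintro ⟨j, hj, hv⟩
          refine ⟨j, ?_, hv⟩
          rw [← Sum.swap_swap (ℓ v), hj]
          rfl
      have hEX' : ∀ v, v ∈ EX ↔ ∃ i, (ℓ v).swap = (.inr i : J ⊕ I) ∧ v ≠ u i := by
        intro v
        rw [hEX]
        constructor
        · rintro ⟨j, hj, hv⟩
          exact ⟨j, by rw [hj]; rfl, hv⟩
        · rintro ⟨j, hj, hv⟩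
          refine ⟨j, ?_, hv⟩
          rw [← Sum.swap_swap (ℓ v), hj]
          rfl
      obtain ⟨W, hW, H, ℓ', u', w', h1, h2, h3⟩ :=
        step G (fun v => (ℓ v).swap) w u h.swap EY EX hEY' hEX' hle hne
      exact (h3 (ih (Fintype.card W) (hn ▸ h1) H ℓ' u' w' rfl h2)).swap

/-- **Bipartite schemes, general form.** If the vertices of a finite graph are labelled by rows and
columns, the root `u i` has label `i`, the root `w j` has label `j`, and `u i`, `w j` are joined
inside the union of the classes of `i` and `j` for all `i`, `j`, then the graph has a complete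
bipartite minor with these roots. -/
theorem scheme_main {V I J : Type} [Fintype V] [Fintype I] [Fintype J] [Nonempty I]
    [Nonempty J] (G : SimpleGraph V) (ℓ : V → I ⊕ J) (u : I → V) (w : J → V)
    (hu : ∀ i, ℓ (u i) = .inl i) (hw : ∀ j, ℓ (w j) = .inr j)
    (hc : ∀ i j, (cell G ℓ i j).Reachable (u i) (w j)) : Model G u w := by
  classical
  let R : V → V → Prop := fun v v' => ℓ v = ℓ v' ∧ G.Adj v v'
  let s : Setoid V := Relation.EqvGen.setoid R
  have hRℓ : ∀ v v', Relation.EqvGen R v v' → ℓ v = ℓ v' := by
    intro v v' hvv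
    induction hvv with
    | rel x y hxy => exact hxy.1
    | refl x => rfl
    | symm x y _ ih => exact ih.symm
    | trans x y z _ _ ih1 ih2 => exact ih1.trans ih2
  let W : Type := Quotient s
  let mk : V → W := fun v => Quotient.mk s v
  have hmk : ∀ v v', mk v = mk v' ↔ Relation.EqvGen R v v' :=
    fun v v' => ⟨fun h => Quotient.exact h, fun h => Quotient.sound h⟩
  let ℓ' : W → I ⊕ J := Quotient.lift ℓ (fun v v' hvv => hRℓ _ _ hvv)
  have hℓ' : ∀ v, ℓ' (mk v) = ℓ v := fun v => rfl
  let H : SimpleGraph W :=
    { Adj := fun c d => (ℓ' c).isLeft ≠ (ℓ' d).isLeft ∧ ∃ v v', mk v = c ∧ mk v' = d ∧ G.Adj v v'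
      symm := ⟨fun c d h => ⟨h.1.symm, by
        obtain ⟨v, v', h1, h2, h3⟩ := h.2
        exact ⟨v', v, h2, h1, h3.symm⟩⟩⟩
      loopless := ⟨fun c h => h.1 rfl⟩ }
  have : Fintype W := Fintype.ofFinite W
  have hscheme : BipScheme H ℓ' (fun i => mk (u i)) (fun j => mk (w j)) := by
    refine ⟨fun c d h => h.1, hu, hw, ?_⟩
    intro i j
    have key : ∀ v, Relation.ReflTransGen (cell G ℓ i j).Adj (u i) v →
        (cell H ℓ' i j).Reachable (mk (u i)) (mk v) := by
      intro v hv
      induction hv with
      | refl => exact SimpleGraph.Reachable.refl _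
      | @tail x y _ hxy ih =>
        obtain ⟨hadj, hx, hy⟩ := hxy
        by_cases hl : ℓ x = ℓ y
        · have : mk x = mk y := (hmk x y).2 (Relation.EqvGen.rel _ _ ⟨hl, hadj⟩)
          rw [← this]
          exact ih
        · have : (cell H ℓ' i j).Adj (mk x) (mk y) := by
            refine ⟨⟨?_, x, y, rfl, rfl, hadj⟩, hx, hy⟩
            rw [hℓ', hℓ']
            rcases hx with hx | hx <;> rcases hy with hy | hy
            · exact absurd (hx.trans hy.symm) hl
            · rw [hx, hy]; simp
            · rw [hx, hy]; simp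
            · exact absurd (hx.trans hy.symm) hl
          exact ih.trans this.reachable
    have := hc i j
    rw [SimpleGraph.reachable_iff_reflTransGen] at this
    exact key _ this
  have hmodel := bip_main (Fintype.card W) H ℓ' _ _ rfl hscheme
  refine Model.of_contraction G H (fun v => some (mk v)) ?_ ?_ u w _ _ (fun i => rfl)
    (fun j => rfl) hmodel
  · intro c
    obtain ⟨x, rfl⟩ := Quotient.mk_surjective c
    have hgen : ∀ v v', Relation.EqvGen R v v' → (mk v = mk v') ∧
        ∀ (hv : some (mk v) = some (mk x)) (hv' : some (mk v') = some (mk x)),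
          (G.induce {v | some (mk v) = some (mk x)}).Reachable ⟨v, hv⟩ ⟨v', hv'⟩ := by
      intro v v' hvv
      induction hvv with
      | rel v v' hR =>
        refine ⟨(hmk _ _).2 (Relation.EqvGen.rel _ _ hR), fun hv hv' => ?_⟩
        have : (G.induce {v | some (mk v) = some (mk x)}).Adj ⟨v, hv⟩ ⟨v', hv'⟩ := hR.2
        exact this.reachable
      | refl v => exact ⟨rfl, fun _ _ => SimpleGraph.Reachable.refl _⟩
      | symm v v' _ ih => exact ⟨ih.1.symm, fun hv hv' => (ih.2 hv' hv).symm⟩
      | trans v v' v'' _ _ ih1 ih2 =>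
        refine ⟨ih1.1.trans ih2.1, fun hv hv'' => ?_⟩
        have hv' : some (mk v') = some (mk x) := by rw [← ih1.1]; exact hv
        exact (ih1.2 hv hv').trans (ih2.2 hv' hv'')
    rw [SimpleGraph.connected_iff_exists_forall_reachable]
    refine ⟨⟨x, rfl⟩, ?_⟩
    rintro ⟨v, hv⟩
    have h1 : mk v = mk x := Option.some_injective _ hv
    exact (hgen x v ((hmk _ _).1 h1.symm)).2 rfl hv
  · intro c d hcd
    obtain ⟨v, v', h1, h2, h3⟩ := hcd.2
    exact ⟨v, v', by rw [h1], by rw [h2], h3⟩

end Pool.Agent.Helper411
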