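import Pool.Agent.Helper411.Bip

set_option autoImplicit false
set_option linter.unusedSectionVars false

namespace Pool.Agent.Helper411

open Submodule Module Finset

/-- One contraction step: if there are at least as many column islands as row islands, some
column islands can be absorbed by the rows. -/
theorem step {V I J : Type} [Fintype V] [Fintype I] [Nonempty I]
    (G : SimpleGraph V) (ℓ : V → I ⊕ J) (u : I → V) (w : J → V) (h : BipScheme G ℓ u w)
    (EX EY : Finset V) (hEX : ∀ v, v ∈ EX ↔ ∃ i, ℓ v = .inl i ∧ v ≠ u i)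
    (hEY : ∀ v, v ∈ EY ↔ ∃ j, ℓ v = .inr j ∧ v ≠ w j)
    (hcard : EX.card ≤ EY.card) (hne : EY.Nonempty) :
    ∃ (W : Type) (_ : Fintype W) (H : SimpleGraph W) (ℓ' : W → I ⊕ J) (u' : I → W) (w' : J → W),
      Fintype.card W < Fintype.card V ∧ BipScheme H ℓ' u' w' ∧ (Model H u' w' → Model G u w) := by
  classical
  choose lk0 a0 b0 hlk0 hch0 using fun i j => exists_links h i j
  let lk : I → V → Prop := fun i y => ∃ j, ℓ y = .inr j ∧ lk0 i j y
  let a : I → V → V := fun i y => match ℓ y with
    | .inr j => a0 i j y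
    | .inl _ => y
  let b : I → V → V := fun i y => match ℓ y with
    | .inr j => b0 i j y
    | .inl _ => y
  have ha : ∀ i j y, ℓ y = .inr j → a i y = a0 i j y := by
    intro i j y hy
    simp only [a, hy]
  have hb : ∀ i j y, ℓ y = .inr j → b i y = b0 i j y := by
    intro i j y hy
    simp only [b, hy]
  have hA : ∀ i y, lk i y → y ∈ EY ∧ ℓ (a i y) = .inl i ∧ ℓ (b i y) = .inl i ∧
      G.Adj (a i y) y ∧ G.Adj y (b i y) := by
    rintro i y ⟨j, hj, hl⟩
    obtain ⟨h1, h2, h3, h4, h5, h6⟩ := hlk0 i j y hl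
    rw [ha i j y hj, hb i j y hj]
    exact ⟨(hEY y).2 ⟨j, hj, h1⟩, h3, h4, h5, h6⟩
  have hB : ∀ i j, ∃ x, Relation.ReflTransGen
      (fun x x' => ∃ y, ℓ y = .inr j ∧ lk i y ∧ a i y = x ∧ b i y = x') (u i) x ∧
      ℓ x = .inl i ∧ G.Adj x (w j) := by
    intro i j
    obtain ⟨x, hx1, hx2, hx3⟩ := hch0 i j
    refine ⟨x, ?_, hx2, hx3⟩
    refine Relation.ReflTransGen.mono ?_ _ _ hx1
    rintro s t ⟨y, hy, hs, ht⟩
    have hyj := (hlk0 i j y hy).2.1
    exact ⟨y, hyj, ⟨j, hyj, hy⟩, by rw [ha i j y hyj]; exact hs, by rw [hb i j y hyj]; exact ht⟩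
  -- the vectors of the links
  let z : I → V → (V → ℚ) := fun i y =>
    if lk i y then Pi.single (a i y) 1 - Pi.single (b i y) 1 else 0
  have hrank : ∀ F : Finset V, ∑ i, finrank ℚ (span ℚ (z i '' (F : Set V))) ≤ EX.card := by
    intro F
    let X : I → Finset V := fun i => EX.filter (fun v => ℓ v = .inl i)
    have h1 : ∀ i, finrank ℚ (span ℚ (z i '' (F : Set V))) ≤ (X i).card := by
      intro i
      let g : V → (V → ℚ) := fun x => Pi.single x 1 - Pi.single (u i) 1
      have hg : ∀ x, ℓ x = .inl i → g x ∈ span ℚ (g '' (X i : Set V)) := by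
        intro x hx
        by_cases hxu : x = u i
        · have : g x = 0 := by simp only [g]; rw [hxu, sub_self]
          rw [this]
          exact Submodule.zero_mem _
        · apply subset_span
          refine ⟨x, ?_, rfl⟩
          rw [Finset.mem_coe, Finset.mem_filter]
          exact ⟨(hEX x).2 ⟨i, hx, hxu⟩, hx⟩
      have hle : span ℚ (z i '' (F : Set V)) ≤ span ℚ (g '' (X i : Set V)) := by
        rw [span_le]
        rintro _ ⟨y, _, rfl⟩
        by_cases hl : lk i y
        · have : z i y = g (a i y) - g (b i y) := by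
            simp only [z, if_pos hl, g]
            abel
          rw [SetLike.mem_coe, this]
          exact Submodule.sub_mem _ (hg _ (hA i y hl).2.1) (hg _ (hA i y hl).2.2.1)
        · have : z i y = 0 := by simp only [z, if_neg hl]
          rw [SetLike.mem_coe, this]
          exact Submodule.zero_mem _
      calc finrank ℚ (span ℚ (z i '' (F : Set V))) ≤ finrank ℚ (span ℚ (g '' (X i : Set V))) :=
            Submodule.finrank_mono hle
        _ ≤ ((X i).image g).card := by
            have := finrank_span_finset_le_card (R := ℚ) ((X i).image g)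
            rwa [Finset.coe_image] at this
        _ ≤ (X i).card := Finset.card_image_le
    have h2 : ∑ i, (X i).card ≤ EX.card := by
      rw [← Finset.card_biUnion]
      · apply Finset.card_le_card
        intro x hx
        obtain ⟨i, _, hi⟩ := Finset.mem_biUnion.1 hx
        exact (Finset.mem_filter.1 hi).1
      · intro i _ j _ hij
        change Disjoint (X i) (X j)
        rw [Finset.disjoint_left]
        intro x hx hx'
        have e1 := (Finset.mem_filter.1 hx).2
        have e2 := (Finset.mem_filter.1 hx').2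
        rw [e1] at e2
        exact hij (Sum.inl_injective e2)
    exact (Finset.sum_le_sum (fun i _ => h1 i)).trans h2
  -- a minimal set `F`
  obtain ⟨F, hFmin⟩ := exists_minimal_of_wellFoundedLT
    (fun F : Finset V => F ⊆ EY ∧ F.Nonempty ∧
      ∑ i, finrank ℚ (span ℚ (z i '' (F : Set V))) ≤ F.card)
    ⟨EY, Finset.Subset.refl _, hne, (hrank EY).trans hcard⟩
  obtain ⟨⟨hFE, hFne, hFle⟩, hFmin⟩ := hFmin
  obtain ⟨f, hf⟩ := exists_spanning z F hFle (by
    intro F' hF' hne'
    by_contra hcon
    push Not at hcon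
    have := hFmin ⟨hF'.1.trans hFE, hne', hcon⟩ hF'.1
    exact hF'.2 this)
  have hXF : ∀ v i, ℓ v = .inl i → v ∉ F := by
    intro v i hv hvF
    obtain ⟨j, hj, _⟩ := (hEY v).1 (hFE hvF)
    rw [hv] at hj
    simp at hj
  have hWF : ∀ j, w j ∉ F := by
    intro j hj
    obtain ⟨j', hj', hne'⟩ := (hEY _).1 (hFE hj)
    rw [h.hw j] at hj'
    have : j = j' := Sum.inr_injective hj'
    subst this
    exact hne' rfl
  -- the equivalence relation
  let R : V → V → Prop := fun v v' => ∃ y ∈ F, lk (f y) y ∧ v = a (f y) y ∧ v' = b (f y) y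
  have hRℓ : ∀ v v', Relation.EqvGen R v v' → ℓ v = ℓ v' := by
    intro v v' hvv
    induction hvv with
    | rel x y hxy =>
      obtain ⟨y', _, hl, rfl, rfl⟩ := hxy
      rw [(hA _ _ hl).2.1, (hA _ _ hl).2.2.1]
    | refl x => rfl
    | symm x y _ ih => exact ih.symm
    | trans x y z _ _ ih1 ih2 => exact ih1.trans ih2
  -- all links of `F` stay inside classes
  have hlink : ∀ i, ∀ y ∈ F, lk i y → Relation.EqvGen R (a i y) (b i y) := by
    intro i y hy hl
    let χ : V → ℚ := fun v => if Relation.EqvGen R (a i y) v then 1 else 0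
    let Φ : (V → ℚ) →ₗ[ℚ] ℚ :=
      { toFun := fun g => ∑ v, χ v * g v
        map_add' := by
          intro g g'
          rw [← Finset.sum_add_distrib]
          exact Finset.sum_congr rfl (fun v _ => by rw [Pi.add_apply]; ring)
        map_smul' := by
          intro c g
          rw [RingHom.id_apply, smul_eq_mul, Finset.mul_sum]
          exact Finset.sum_congr rfl (fun v _ => by rw [Pi.smul_apply, smul_eq_mul]; ring) }
    have hΦs : ∀ x, Φ (Pi.single x 1) = χ x := by
      intro x
      simp only [Φ, LinearMap.coe_mk, AddHom.coe_mk]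
      rw [Finset.sum_eq_single x]
      · rw [Pi.single_eq_same, mul_one]
      · intro v _ hv
        rw [Pi.single_eq_of_ne hv, mul_zero]
      · intro hx
        exact absurd (Finset.mem_univ x) hx
    have hker : span ℚ (z i '' ((F.filter (fun y => f y = i) : Finset V) : Set V)) ≤
        LinearMap.ker Φ := by
      rw [span_le]
      rintro _ ⟨y', hy', rfl⟩
      rw [Finset.mem_coe, Finset.mem_filter] at hy'
      rw [SetLike.mem_coe, LinearMap.mem_ker]
      by_cases hl' : lk i y'
      · have e1 : z i y' = Pi.single (a i y') 1 - Pi.single (b i y') 1 := by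
          simp only [z, if_pos hl']
        rw [e1, map_sub, hΦs, hΦs]
        have hR : R (a i y') (b i y') := by
          refine ⟨y', hy'.1, ?_, ?_, ?_⟩
          · rw [hy'.2]; exact hl'
          · rw [hy'.2]
          · rw [hy'.2]
        have hiff : Relation.EqvGen R (a i y) (a i y') ↔ Relation.EqvGen R (a i y) (b i y') :=
          ⟨fun h => h.trans _ _ _ (Relation.EqvGen.rel _ _ hR),
           fun h => h.trans _ _ _ (Relation.EqvGen.rel _ _ hR).symm⟩
        simp only [χ]
        by_cases hc : Relation.EqvGen R (a i y) (a i y')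
        · rw [if_pos hc, if_pos (hiff.1 hc), sub_self]
        · rw [if_neg hc, if_neg (fun h => hc (hiff.2 h)), sub_self]
      · have e1 : z i y' = 0 := by simp only [z, if_neg hl']
        rw [e1, map_zero]
    have hmem : z i y ∈ span ℚ (z i '' ((F.filter (fun y => f y = i) : Finset V) : Set V)) := by
      rw [hf i]
      exact subset_span ⟨y, hy, rfl⟩
    have h0 := hker hmem
    rw [LinearMap.mem_ker] at h0
    have e1 : z i y = Pi.single (a i y) 1 - Pi.single (b i y) 1 := by
      simp only [z, if_pos hl]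
    rw [e1, map_sub, hΦs, hΦs] at h0
    simp only [χ] at h0
    rw [if_pos (Relation.EqvGen.refl _)] at h0
    by_contra hcon
    rw [if_neg hcon] at h0
    norm_num at h0
  -- the quotient
  let s : Setoid {v : V // v ∉ F} :=
    { r := fun x y => Relation.EqvGen R x.1 y.1
      iseqv := ⟨fun x => Relation.EqvGen.refl _, fun h => h.symm _ _, fun h h' => h.trans _ _ _ h'⟩ }
  let W : Type := Quotient s
  let mk : {v : V // v ∉ F} → W := fun v => Quotient.mk s v
  have hmk : ∀ v v' : {v : V // v ∉ F}, mk v = mk v' ↔ Relation.EqvGen R v.1 v'.1 := by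
    intro v v'
    exact ⟨fun h => Quotient.exact h, fun h => Quotient.sound h⟩
  let ℓ' : W → I ⊕ J := Quotient.lift (fun v : {v : V // v ∉ F} => ℓ v.1)
    (fun v v' hvv => hRℓ _ _ hvv)
  have hℓ' : ∀ v, ℓ' (mk v) = ℓ v.1 := fun v => rfl
  let φ : V → Option W := fun v =>
    if hv : v ∉ F then some (mk ⟨v, hv⟩)
    else if hl : lk (f v) v then some (mk ⟨a (f v) v, hXF _ _ (hA _ _ hl).2.1⟩)
    else none
  have hφ1 : ∀ v (hv : v ∉ F), φ v = some (mk ⟨v, hv⟩) := by
    intro v hv
    simp only [φ, dif_pos hv]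
  have hφ2 : ∀ v (hv : v ∈ F) (hl : lk (f v) v),
      φ v = some (mk ⟨a (f v) v, hXF _ _ (hA _ _ hl).2.1⟩) := by
    intro v hv hl
    simp only [φ, dif_neg (not_not.2 hv), dif_pos hl]
  have hφ3 : ∀ v (hv : v ∈ F) (hl : ¬ lk (f v) v), φ v = none := by
    intro v hv hl
    simp only [φ, dif_neg (not_not.2 hv), dif_neg hl]
  let H : SimpleGraph W :=
    { Adj := fun c d => (ℓ' c).isLeft ≠ (ℓ' d).isLeft ∧
        ∃ v v', φ v = some c ∧ φ v' = some d ∧ G.Adj v v'
      symm := ⟨fun c d h => ⟨h.1.symm, by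
        obtain ⟨v, v', h1, h2, h3⟩ := h.2
        exact ⟨v', v, h2, h1, h3.symm⟩⟩⟩
      loopless := ⟨fun c h => h.1 rfl⟩ }
  have : Fintype W := Fintype.ofFinite W
  refine ⟨W, inferInstance, H, ℓ', fun i => mk ⟨u i, hXF _ _ (h.hu i)⟩,
    fun j => mk ⟨w j, hWF j⟩, ?_, ?_, ?_⟩
  · -- cardinality
    have h1 : Fintype.card W ≤ Fintype.card {v : V // v ∉ F} :=
      Fintype.card_le_of_surjective mk Quotient.mk_surjective
    obtain ⟨y, hy⟩ := hFne
    have h2 : Fintype.card {v : V // v ∉ F} < Fintype.card V :=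
      Fintype.card_subtype_lt (x := y) (not_not.2 hy)
    omega
  · -- the new scheme
    refine ⟨fun c d h => h.1, fun i => h.hu i, fun j => h.hw j, ?_⟩
    intro i j
    obtain ⟨x, hx1, hx2, hx3⟩ := hB i j
    have key : ∀ x, Relation.ReflTransGen
        (fun x x' => ∃ y, ℓ y = .inr j ∧ lk i y ∧ a i y = x ∧ b i y = x') (u i) x →
        ∃ hx : x ∉ F, ℓ x = .inl i ∧
          (cell H ℓ' i j).Reachable (mk ⟨u i, hXF _ _ (h.hu i)⟩) (mk ⟨x, hx⟩) := by
      intro x hx
      induction hx with
      | refl => exact ⟨hXF _ _ (h.hu i), h.hu i, SimpleGraph.Reachable.refl _⟩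
      | @tail x x' _ hstep ih =>
        obtain ⟨hxF, hxℓ, hreach⟩ := ih
        obtain ⟨y, hyj, hl, hax, hbx⟩ := hstep
        obtain ⟨hyE, hℓa, hℓb, hadj1, hadj2⟩ := hA i y hl
        have hx'ℓ : ℓ x' = .inl i := hbx ▸ hℓb
        have hx'F : x' ∉ F := hXF _ _ hx'ℓ
        refine ⟨hx'F, hx'ℓ, ?_⟩
        by_cases hyF : y ∈ F
        · have he := hlink i y hyF hl
          have : mk ⟨x, hxF⟩ = mk ⟨x', hx'F⟩ := by
            rw [hmk]
            rw [hax, hbx] at he
            exact he
          rw [← this]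
          exact hreach
        · have e1 : (cell H ℓ' i j).Adj (mk ⟨x, hxF⟩) (mk ⟨y, hyF⟩) := by
            refine ⟨⟨?_, x, y, hφ1 x hxF, hφ1 y hyF, ?_⟩, Or.inl hxℓ, Or.inr hyj⟩
            · rw [hℓ', hℓ']
              simp only [hxℓ, hyj]
              simp
            · rw [hax] at hadj1
              exact hadj1
          have e2 : (cell H ℓ' i j).Adj (mk ⟨y, hyF⟩) (mk ⟨x', hx'F⟩) := by
            refine ⟨⟨?_, y, x', hφ1 y hyF, hφ1 x' hx'F, ?_⟩, Or.inr hyj, Or.inl hx'ℓ⟩
            · rw [hℓ', hℓ']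
              simp only [hx'ℓ, hyj]
              simp
            · rw [hbx] at hadj2
              exact hadj2
          exact (hreach.trans e1.reachable).trans e2.reachable
    obtain ⟨hxF, _, hreach⟩ := key x hx1
    have e1 : (cell H ℓ' i j).Adj (mk ⟨x, hxF⟩) (mk ⟨w j, hWF j⟩) := by
      refine ⟨⟨?_, x, w j, hφ1 x hxF, hφ1 _ (hWF j), hx3⟩, Or.inl hx2, Or.inr (h.hw j)⟩
      rw [hℓ', hℓ']
      simp only [hx2, h.hw j]
      simp
    exact hreach.trans e1.reachable
  · -- lifting the model
    apply Model.of_contraction G H φ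
    · intro c
      obtain ⟨⟨x, hxF⟩, rfl⟩ := Quotient.mk_surjective c
      have hx : φ x = some (mk ⟨x, hxF⟩) := hφ1 x hxF
      rw [SimpleGraph.connected_iff_exists_forall_reachable]
      refine ⟨⟨x, hx⟩, ?_⟩
      have hgen : ∀ v v', Relation.EqvGen R v v' → (φ v = φ v') ∧
          ∀ (hv : φ v = some (mk ⟨x, hxF⟩)) (hv' : φ v' = some (mk ⟨x, hxF⟩)),
            (G.induce {v | φ v = some (mk ⟨x, hxF⟩)}).Reachable ⟨v, hv⟩ ⟨v', hv'⟩ := by
        intro v v' hvv
        induction hvv with
        | rel v v' hR =>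
          have hE : Relation.EqvGen R v v' := Relation.EqvGen.rel _ _ hR
          obtain ⟨y, hyF, hl, hva, hvb⟩ := hR
          obtain ⟨hyE, hℓa, hℓb, hadj1, hadj2⟩ := hA _ y hl
          have hvF : v ∉ F := hXF _ _ (hva ▸ hℓa)
          have hv'F : v' ∉ F := hXF _ _ (hvb ▸ hℓb)
          have e1 : φ v = φ v' := by
            rw [hφ1 v hvF, hφ1 v' hv'F]
            congr 1
            rw [hmk]
            exact hE
          refine ⟨e1, ?_⟩
          intro hv hv'
          have hy : φ y = some (mk ⟨x, hxF⟩) := by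
            rw [hφ2 y hyF hl, ← hv, hφ1 v hvF]
            congr 1
            rw [hmk]
            simp only
            rw [← hva]
            exact Relation.EqvGen.refl _
          have r1 : (G.induce {v | φ v = some (mk ⟨x, hxF⟩)}).Adj ⟨v, hv⟩ ⟨y, hy⟩ := by
            rw [← hva] at hadj1
            exact hadj1
          have r2 : (G.induce {v | φ v = some (mk ⟨x, hxF⟩)}).Adj ⟨y, hy⟩ ⟨v', hv'⟩ := by
            rw [← hvb] at hadj2
            exact hadj2
          exact r1.reachable.trans r2.reachable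
        | refl v => exact ⟨rfl, fun _ _ => SimpleGraph.Reachable.refl _⟩
        | symm v v' _ ih => exact ⟨ih.1.symm, fun hv hv' => (ih.2 hv' hv).symm⟩
        | trans v v' v'' _ _ ih1 ih2 =>
          refine ⟨ih1.1.trans ih2.1, fun hv hv'' => ?_⟩
          have hv' : φ v' = some (mk ⟨x, hxF⟩) := by rw [← ih1.1]; exact hv
          exact (ih1.2 hv hv').trans (ih2.2 hv' hv'')
      rintro ⟨v, hv⟩
      have hv0 : φ v = some (mk ⟨x, hxF⟩) := hv
      by_cases hvF : v ∉ F
      · have : Relation.EqvGen R x v := by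
          rw [hφ1 v hvF] at hv0
          have := Option.some_injective _ hv0
          rw [hmk] at this
          exact this.symm _ _
        exact (hgen x v this).2 hx hv
      · have hvF' : v ∈ F := not_not.1 hvF
        by_cases hl : lk (f v) v
        · obtain ⟨hyE, hℓa, hℓb, hadj1, hadj2⟩ := hA _ v hl
          have haF := hXF _ _ hℓa
          rw [hφ2 v hvF' hl] at hv0
          have h1 : φ (a (f v) v) = some (mk ⟨x, hxF⟩) := by
            rw [hφ1 _ haF]
            exact hv0
          have h2 : Relation.EqvGen R x (a (f v) v) := by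
            have := Option.some_injective _ hv0
            rw [hmk] at this
            exact this.symm _ _
          have r1 := (hgen x _ h2).2 hx h1
          have r2 : (G.induce {v | φ v = some (mk ⟨x, hxF⟩)}).Adj ⟨a (f v) v, h1⟩ ⟨v, hv⟩ := hadj1
          exact r1.trans r2.reachable
        · rw [hφ3 v hvF' hl] at hv0
          simp at hv0
    · intro c d hcd
      exact hcd.2
    · intro i
      exact hφ1 _ _
    · intro j
      exact hφ1 _ _

end Pool.Agent.Helper411
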