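import Mathlib

set_option autoImplicit false
set_option linter.unusedSectionVars false

namespace Pool.Agent.Helper411

open Submodule Module Finset

section Union

variable {K W ι α : Type} [Field K] [AddCommGroup W] [Module K W] [FiniteDimensional K W]
  [Fintype ι] [DecidableEq ι] [DecidableEq α]

/-- The dimension of `N + span (z '' F)`. -/
noncomputable def rk (N : Submodule K W) (z : α → W) (F : Finset α) : ℕ :=
  finrank K (N ⊔ span K (z '' (F : Set α)) : Submodule K W)

lemma rk_empty (N : Submodule K W) (z : α → W) : rk N z ∅ = finrank K N := by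
  unfold rk
  rw [Finset.coe_empty, Set.image_empty, span_empty, sup_bot_eq]

lemma rk_mono (N : Submodule K W) (z : α → W) {F F' : Finset α} (h : F ⊆ F') :
    rk N z F ≤ rk N z F' := by
  unfold rk
  apply Submodule.finrank_mono
  exact sup_le_sup_left (span_mono (Set.image_mono (by exact_mod_cast h))) N

lemma rk_sup (N : Submodule K W) (z : α → W) (F F' : Finset α) :
    rk (N ⊔ span K (z '' (F : Set α))) z F' = rk N z (F ∪ F') := by
  unfold rk
  rw [sup_assoc, ← span_union, ← Set.image_union, Finset.coe_union]

lemma finrank_le_rk (N : Submodule K W) (z : α → W) (F : Finset α) : finrank K N ≤ rk N z F := by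
  rw [← rk_empty N z]
  exact rk_mono N z (Finset.empty_subset _)

lemma rk_singleton_le (N : Submodule K W) (z : α → W) (y : α) :
    rk N z {y} ≤ finrank K N + 1 := by
  unfold rk
  have h := Submodule.finrank_add_le_finrank_add_finrank N (span K (z '' (({y} : Finset α) : Set α)))
  have h2 : finrank K (span K (z '' (({y} : Finset α) : Set α))) ≤ 1 := by
    rw [Finset.coe_singleton, Set.image_singleton]
    have := finrank_span_le_card (R := K) ({z y} : Set W)
    simpa using this
  omega

/-- Edmonds' partition theorem for representable matroids: if every subset `F'` of `F` satisfies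
`|F'| ≤ ∑ r_i(F')` then `F` splits into sets independent in the respective matroids. -/
theorem union_indep [Nonempty ι] (z : ι → α → W) (n : ℕ) :
    ∀ (F : Finset α) (N : ι → Submodule K W), F.card = n →
    (∀ F' ⊆ F, (∑ i, finrank K (N i)) + F'.card ≤ ∑ i, rk (N i) (z i) F') →
    ∃ f : α → ι, ∀ i, rk (N i) (z i) (F.filter (fun a => f a = i)) =
      finrank K (N i) + (F.filter (fun a => f a = i)).card := by
  induction n using Nat.strong_induction_on with
  | _ n ih =>
  intro F N hn hF
  by_cases hemp : F = ∅
  · subst hemp
    refine ⟨fun _ => Classical.arbitrary ι, fun i => ?_⟩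
    rw [Finset.filter_empty, rk_empty, Finset.card_empty, add_zero]
  by_cases htight : ∃ F' ⊆ F, F'.Nonempty ∧ F' ≠ F ∧
      ∑ i, rk (N i) (z i) F' ≤ (∑ i, finrank K (N i)) + F'.card
  · obtain ⟨F', hsub, hne', hneF, htle⟩ := htight
    have hss : F' ⊂ F := Finset.ssubset_iff_subset_ne.2 ⟨hsub, hneF⟩
    have hc1 : F'.card < n := hn ▸ Finset.card_lt_card hss
    have hc2 : (F \ F').card < n := by
      rw [Finset.card_sdiff_of_subset hsub, hn]
      have := Finset.card_pos.2 hne'
      omega
    have hteq : ∑ i, rk (N i) (z i) F' = (∑ i, finrank K (N i)) + F'.card :=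
      le_antisymm htle (hF F' hsub)
    obtain ⟨f1, hf1⟩ := ih F'.card hc1 F' N rfl (fun G hG => hF G (hG.trans hsub))
    obtain ⟨f2, hf2⟩ := ih (F \ F').card hc2 (F \ F')
      (fun i => N i ⊔ span K (z i '' (F' : Set α))) rfl (by
        intro G hG
        have h1 : ∑ i, rk (N i ⊔ span K (z i '' (F' : Set α))) (z i) G =
            ∑ i, rk (N i) (z i) (F' ∪ G) := Finset.sum_congr rfl (fun i _ => rk_sup _ _ _ _)
        have h2 : ∑ i, finrank K (N i ⊔ span K (z i '' (F' : Set α)) : Submodule K W) =
            ∑ i, rk (N i) (z i) F' := rfl
        have h3 : (F' ∪ G).card = F'.card + G.card := by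
          apply Finset.card_union_of_disjoint
          rw [Finset.disjoint_left]
          intro a ha hb
          exact (Finset.mem_sdiff.1 (hG hb)).2 ha
        have h4 := hF (F' ∪ G) (Finset.union_subset hsub (hG.trans Finset.sdiff_subset))
        rw [h1, h2, hteq]
        omega)
    refine ⟨fun a => if a ∈ F' then f1 a else f2 a, fun i => ?_⟩
    set f : α → ι := fun a => if a ∈ F' then f1 a else f2 a with hf
    have hfil : F.filter (fun a => f a = i) =
        F'.filter (fun a => f1 a = i) ∪ (F \ F').filter (fun a => f2 a = i) := by
      ext a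
      simp only [Finset.mem_filter, Finset.mem_union, Finset.mem_sdiff, hf]
      by_cases ha : a ∈ F'
      · simp [ha, hsub ha]
      · simp [ha]
    have hdis : Disjoint (F'.filter (fun a => f1 a = i)) ((F \ F').filter (fun a => f2 a = i)) := by
      rw [Finset.disjoint_left]
      intro a ha hb
      exact (Finset.mem_sdiff.1 (Finset.mem_filter.1 hb).1).2 (Finset.mem_filter.1 ha).1
    -- the first part spans
    have hspan : ∀ i, N i ⊔ span K (z i '' ((F'.filter (fun a => f1 a = i) : Finset α) : Set α)) =
        N i ⊔ span K (z i '' (F' : Set α)) := by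
      have hle : ∀ i, rk (N i) (z i) (F'.filter (fun a => f1 a = i)) ≤ rk (N i) (z i) F' :=
        fun i => rk_mono _ _ (Finset.filter_subset _ _)
      have hsum : ∑ i, rk (N i) (z i) (F'.filter (fun a => f1 a = i)) =
          ∑ i, rk (N i) (z i) F' := by
        rw [hteq, Finset.sum_congr rfl (fun i _ => hf1 i), Finset.sum_add_distrib]
        congr 1
        have := Finset.card_eq_sum_card_fiberwise (f := f1) (s := F') (t := Finset.univ)
          (fun a _ => Finset.mem_coe.2 (Finset.mem_univ _))
        rw [this]
      have heq := (Finset.sum_eq_sum_iff_of_le (fun i _ => hle i)).1 hsum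
      intro i
      apply Submodule.eq_of_le_of_finrank_eq
      · exact sup_le_sup_left (span_mono (Set.image_mono (by
          exact_mod_cast Finset.filter_subset _ _))) _
      · exact heq i (Finset.mem_univ i)
    rw [hfil, Finset.card_union_of_disjoint hdis, ← rk_sup, hspan i, hf2 i]
    have h5 := hf1 i
    have h6 : finrank K (N i ⊔ span K (z i '' (F' : Set α)) : Submodule K W) =
        finrank K (N i) + (F'.filter (fun a => f1 a = i)).card := by
      rw [← hspan i]
      exact h5
    rw [h6]
    ring
  · push Not at htight
    obtain ⟨y, hy⟩ := Finset.nonempty_iff_ne_empty.2 hemp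
    -- choose a row in which `y` is not a loop
    obtain ⟨i0, hi0⟩ : ∃ i0, finrank K (N i0) < rk (N i0) (z i0) {y} := by
      by_contra hcon
      push Not at hcon
      have h1 := hF {y} (Finset.singleton_subset_iff.2 hy)
      have h2 : ∑ i, rk (N i) (z i) {y} ≤ ∑ i, finrank K (N i) :=
        Finset.sum_le_sum (fun i _ => hcon i)
      rw [Finset.card_singleton] at h1
      omega
    let N' : ι → Submodule K W := fun i =>
      if i = i0 then N i ⊔ span K (z i '' (({y} : Finset α) : Set α)) else N i
    have hN'0 : N' i0 = N i0 ⊔ span K (z i0 '' (({y} : Finset α) : Set α)) := if_pos rfl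
    have hN'1 : ∀ i, i ≠ i0 → N' i = N i := fun i hi => if_neg hi
    have hr0 : finrank K (N' i0) = finrank K (N i0) + 1 := by
      have h1 := rk_singleton_le (N i0) (z i0) y
      have h2 : finrank K (N' i0) = rk (N i0) (z i0) {y} := by rw [hN'0]; rfl
      omega
    have hsumN' : ∑ i, finrank K (N' i) = (∑ i, finrank K (N i)) + 1 := by
      have e1 := Finset.add_sum_erase Finset.univ (fun i => finrank K (N' i)) (Finset.mem_univ i0)
      have e2 := Finset.add_sum_erase Finset.univ (fun i => finrank K (N i)) (Finset.mem_univ i0)
      have e3 : ∑ i ∈ Finset.univ.erase i0, finrank K (N' i) =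
          ∑ i ∈ Finset.univ.erase i0, finrank K (N i) :=
        Finset.sum_congr rfl (fun i hi => by rw [hN'1 i (Finset.ne_of_mem_erase hi)])
      rw [← e1, ← e2, e3, hr0]
      ring
    have hle' : ∀ i, N i ≤ N' i := by
      intro i
      by_cases hi : i = i0
      · subst hi; rw [hN'0]; exact le_sup_left
      · rw [hN'1 i hi]
    have hc : (F.erase y).card < n := by
      rw [Finset.card_erase_of_mem hy, hn]
      have := Finset.card_pos.2 ⟨y, hy⟩
      omega
    obtain ⟨f, hf⟩ := ih (F.erase y).card hc (F.erase y) N' rfl (by
      intro G hG
      by_cases hGe : G = ∅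
      · subst hGe
        rw [Finset.card_empty, add_zero]
        exact Finset.sum_le_sum (fun i _ => finrank_le_rk _ _ _)
      · have hGF : G ⊆ F := hG.trans (Finset.erase_subset _ _)
        have hGne : G ≠ F := by
          rintro rfl
          exact (Finset.mem_erase.1 (hG hy)).1 rfl
        have h1 := htight G hGF (Finset.nonempty_iff_ne_empty.2 hGe) hGne
        have h2 : ∑ i, rk (N i) (z i) G ≤ ∑ i, rk (N' i) (z i) G := by
          apply Finset.sum_le_sum
          intro i _
          exact Submodule.finrank_mono (sup_le_sup_right (hle' i) _)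
        rw [hsumN']
        omega)
    refine ⟨fun a => if a = y then i0 else f a, fun i => ?_⟩
    by_cases hi : i = i0
    · subst hi
      have hfil : F.filter (fun a => (if a = y then i else f a) = i) =
          {y} ∪ (F.erase y).filter (fun a => f a = i) := by
        ext a
        simp only [Finset.mem_filter, Finset.mem_union, Finset.mem_erase, Finset.mem_singleton]
        by_cases ha : a = y
        · subst ha; simp [hy]
        · simp [ha]
      have hdis : Disjoint {y} ((F.erase y).filter (fun a => f a = i)) := by
        rw [Finset.disjoint_singleton_left]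
        simp
      rw [hfil, Finset.card_union_of_disjoint hdis, ← rk_sup, ← hN'0, hf i, hr0,
        Finset.card_singleton]
      ring
    · have hfil : F.filter (fun a => (if a = y then i0 else f a) = i) =
          (F.erase y).filter (fun a => f a = i) := by
        ext a
        simp only [Finset.mem_filter, Finset.mem_erase]
        by_cases ha : a = y
        · subst ha; simp [Ne.symm hi]
        · simp [ha]
      rw [hfil]
      have := hf i
      rw [hN'1 i hi] at this
      exact this

/-- Spanning version: a minimal nonempty set `F` with `∑ r_i(F) ≤ |F|` contains disjoint sets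
spanning `F` in the respective matroids. -/
theorem exists_spanning [Nonempty ι] (z : ι → α → W) (F : Finset α)
    (hF : ∑ i, finrank K (span K (z i '' (F : Set α))) ≤ F.card)
    (hmin : ∀ F' ⊂ F, F'.Nonempty → F'.card < ∑ i, finrank K (span K (z i '' (F' : Set α)))) :
    ∃ f : α → ι, ∀ i, span K (z i '' ((F.filter (fun a => f a = i) : Finset α) : Set α)) =
      span K (z i '' (F : Set α)) := by
  have hrk : ∀ i (G : Finset α), rk (⊥ : Submodule K W) (z i) G =
      finrank K (span K (z i '' (G : Set α))) := by
    intro i G
    unfold rk
    rw [bot_sup_eq]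
  by_cases hz : ∑ i, finrank K (span K (z i '' (F : Set α))) < F.card
  · -- then `F` is a single common loop
    have hzero : ∑ i, finrank K (span K (z i '' (F : Set α))) = 0 := by
      by_contra hne
      obtain ⟨y, hy⟩ : F.Nonempty := by
        apply Finset.card_pos.1
        omega
      have hss : F.erase y ⊂ F := Finset.erase_ssubset hy
      by_cases he : (F.erase y).Nonempty
      · have h1 := hmin _ hss he
        have h2 : ∑ i, finrank K (span K (z i '' ((F.erase y : Finset α) : Set α))) ≤
            ∑ i, finrank K (span K (z i '' (F : Set α))) := by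
          apply Finset.sum_le_sum
          intro i _
          exact Submodule.finrank_mono (span_mono (Set.image_mono (by
            exact_mod_cast Finset.erase_subset _ _)))
        rw [Finset.card_erase_of_mem hy] at h1
        omega
      · rw [Finset.not_nonempty_iff_eq_empty] at he
        have h1 : (F.erase y).card = 0 := by rw [he]; rfl
        rw [Finset.card_erase_of_mem hy] at h1
        omega
    have hz2 : ∀ i, finrank K (span K (z i '' (F : Set α))) = 0 := by
      intro i
      exact (Finset.sum_eq_zero_iff.1 hzero) i (Finset.mem_univ i)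
    refine ⟨fun _ => Classical.arbitrary ι, fun i => ?_⟩
    have hb : span K (z i '' (F : Set α)) = ⊥ := Submodule.finrank_eq_zero.1 (hz2 i)
    rw [hb, eq_bot_iff, ← hb]
    exact span_mono (Set.image_mono (by exact_mod_cast Finset.filter_subset _ _))
  · have heq : ∑ i, finrank K (span K (z i '' (F : Set α))) = F.card :=
      le_antisymm hF (not_lt.1 hz)
    obtain ⟨f, hf⟩ := union_indep z F.card F (fun _ => (⊥ : Submodule K W)) rfl (by
      intro G hG
      have h0 : ∑ i : ι, finrank K ((fun _ => (⊥ : Submodule K W)) i) = 0 := by
        simp
      rw [h0, zero_add]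
      have h1 : ∑ i, rk ((fun _ => (⊥ : Submodule K W)) i) (z i) G =
          ∑ i, finrank K (span K (z i '' (G : Set α))) :=
        Finset.sum_congr rfl (fun i _ => hrk i G)
      rw [h1]
      by_cases hGF : G = F
      · subst hGF; exact heq.ge
      · by_cases hGe : G.Nonempty
        · exact (hmin G (Finset.ssubset_iff_subset_ne.2 ⟨hG, hGF⟩) hGe).le
        · rw [Finset.not_nonempty_iff_eq_empty] at hGe
          subst hGe
          simp)
    refine ⟨f, ?_⟩
    have hle : ∀ i, finrank K (span K (z i '' ((F.filter (fun a => f a = i) : Finset α) : Set α)))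
        ≤ finrank K (span K (z i '' (F : Set α))) := by
      intro i
      exact Submodule.finrank_mono (span_mono (Set.image_mono (by
        exact_mod_cast Finset.filter_subset _ _)))
    have hsum : ∑ i, finrank K (span K
        (z i '' ((F.filter (fun a => f a = i) : Finset α) : Set α))) =
        ∑ i, finrank K (span K (z i '' (F : Set α))) := by
      rw [heq]
      have h1 : ∀ i, finrank K (span K
          (z i '' ((F.filter (fun a => f a = i) : Finset α) : Set α))) =
          (F.filter (fun a => f a = i)).card := by
        intro i
        have := hf i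
        rw [hrk] at this
        rw [this]
        simp
      rw [Finset.sum_congr rfl (fun i _ => h1 i)]
      exact (Finset.card_eq_sum_card_fiberwise (f := f) (s := F) (t := Finset.univ)
          (fun a _ => Finset.mem_coe.2 (Finset.mem_univ _))).symm
    have hall := (Finset.sum_eq_sum_iff_of_le (fun i _ => hle i)).1 hsum
    intro i
    apply Submodule.eq_of_le_of_finrank_eq
    · exact span_mono (Set.image_mono (by exact_mod_cast Finset.filter_subset _ _))
    · exact hall i (Finset.mem_univ i)

end Union

end Pool.Agent.Helper411
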